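import Pool.Agent.R237.SH.Final

/-! The sharing theorem for rational functions `P / Q`. -/

set_option autoImplicit false

open Set Filter Topology Asymptotics Bornology Polynomial

namespace Pool.Agent.R237.SH

variable {P Q : ℂ[X]} {lam a b : ℂ}

theorem nat_aux {k N M : ℕ} (hN : N = M + k) (_hM : M ≠ 0) (h : (k : ℂ) ^ 2 = 2 * k * N) : k = 0 := by
  have h1 : k ^ 2 = 2 * k * N := by exact_mod_cast h
  by_contra hk
  have hk' : 0 < k := Nat.pos_of_ne_zero hk
  have h2 : k = 2 * N := by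
    have : k * k = k * (2 * N) := by rw [← pow_two, h1]; ring
    exact Nat.eq_of_mul_eq_mul_left hk' this
  omega

section
variable (hcop : IsCoprime P Q) (hQ : Q ≠ 0) (hlam : lam ≠ 0) (hab : a ≠ b) (ha : a ≠ 0) (hb : b ≠ 0)
  (hnc : ¬ (P.natDegree = 0 ∧ Q.natDegree = 0))
  (sha : ∀ w, w ≠ 0 → Q.eval w ≠ 0 → (quo P Q w = a ↔ Dop lam (quo P Q) w = a))
  (shb : ∀ w, w ≠ 0 → Q.eval w ≠ 0 → (quo P Q w = b ↔ Dop lam (quo P Q) w = b))
include hcop hQ hlam hab ha hb hnc sha shb

theorem caseB {c : ℂ} (h0 : Q.eval 0 = 0) (hc : Fin' (cobounded ℂ) lam (quo P Q) c) (hcb : c ≠ b) :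
    P * Q = NS lam P Q := by
  have p0 := end0_pole hcop hQ hlam h0
  set m0 := Q.rootMultiplicity 0 with hm0
  have hm0' : m0 ≠ 0 := mult_pos hQ h0
  have f0 := (p0.lim (a := a) (b := b))
  have fi := hc.phi ha hb
  have gi := hc.psi hcb
  have s1 := phi_sum hcop hQ hlam hab hnc sha shb f0.1 fi
  have s2 := psi_sum hcop hQ hlam hab hb hnc sha shb f0.2 gi
  have s3 := X_sum hcop hQ hlam hab hb hnc sha shb f0.1 fi f0.2 gi
  set k := (poles Q).card with hk
  have hsum : ∑ p ∈ poles Q, ((Q.rootMultiplicity p : ℂ) + 1) =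
      ∑ p ∈ poles Q, (Q.rootMultiplicity p : ℂ) + k := by
    rw [Finset.sum_add_distrib, Finset.sum_const, nsmul_eq_mul, mul_one]
  obtain ⟨s1, s1'⟩ := s1
  rw [hsum] at s1
  have hcast : ∑ p ∈ poles Q, (Q.rootMultiplicity p : ℂ) =
      ((∑ p ∈ poles Q, Q.rootMultiplicity p : ℕ) : ℂ) := by push_cast; rfl
  rw [hcast] at s1 s2
  set σ := ∑ p ∈ poles Q, Q.rootMultiplicity p with hσ
  generalize c / (c - b) = x at s2 s3
  have hx : x = -(lam * k) := by linear_combination s1 - s2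
  have hN : lam * ((m0 + σ + k : ℕ) : ℂ) = -1 := by
    push_cast
    linear_combination s1
  have h3 : lam * (k : ℂ) ^ 2 = -(2 * k) := by
    have : lam * (lam * (k : ℂ) ^ 2) = lam * (-(2 * k)) := by
      rw [hx] at s3
      linear_combination s3
    exact mul_left_cancel₀ hlam this
  have hk0 : k = 0 := by
    refine nat_aux (N := m0 + σ + k) (M := m0 + σ) rfl (by omega) ?_
    have : (k : ℂ) ^ 2 = -((k : ℂ) ^ 2) * (lam * ((m0 + σ + k : ℕ) : ℂ)) := by rw [hN]; ring
    rw [this]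
    linear_combination -((m0 + σ + k : ℕ) : ℂ) * h3
  have hZ : poles Q = ∅ := Finset.card_eq_zero.1 (hk ▸ hk0)
  refine finish (a := a) (b := b) hQ (NA_ne hcop hQ hnc sha) (NA_ne hcop hQ hnc shb)
    (FB_ne hcop hnc b) (s1' hZ) (l := 𝓝[≠] 0) ?_ p0
  filter_upwards [self_mem_nhdsWithin] with w hw h
  have : w ∈ poles Q := (mem_poles hQ).2 ⟨hw, h⟩
  rw [hZ] at this
  simp at this

theorem caseC {c : ℂ} (hi : Q.natDegree < P.natDegree) (hc : Fin' (𝓝[≠] 0) lam (quo P Q) c)
    (hcb : c ≠ b) : P * Q = NS lam P Q := by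
  have pi := inf_pole hQ hlam hi
  set M := P.natDegree - Q.natDegree with hM
  have hM' : M ≠ 0 := by omega
  have fi := (pi.lim (a := a) (b := b))
  have f0 := hc.phi ha hb
  have g0 := hc.psi hcb
  have s1 := phi_sum hcop hQ hlam hab hnc sha shb f0 fi.1
  have s2 := psi_sum hcop hQ hlam hab hb hnc sha shb g0 fi.2
  have s3 := X_sum hcop hQ hlam hab hb hnc sha shb f0 fi.1 g0 fi.2
  set k := (poles Q).card with hk
  have hsum : ∑ p ∈ poles Q, ((Q.rootMultiplicity p : ℂ) + 1) =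
      ∑ p ∈ poles Q, (Q.rootMultiplicity p : ℂ) + k := by
    rw [Finset.sum_add_distrib, Finset.sum_const, nsmul_eq_mul, mul_one]
  obtain ⟨s1, s1'⟩ := s1
  rw [hsum] at s1
  have hcast : ∑ p ∈ poles Q, (Q.rootMultiplicity p : ℂ) =
      ((∑ p ∈ poles Q, Q.rootMultiplicity p : ℕ) : ℂ) := by push_cast; rfl
  rw [hcast] at s1 s2
  set σ := ∑ p ∈ poles Q, Q.rootMultiplicity p with hσ
  generalize c / (c - b) = x at s2 s3
  have hx : x = lam * k := by linear_combination s2 - s1
  have hN : lam * ((M + σ + k : ℕ) : ℂ) = 1 := by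
    push_cast
    linear_combination s1
  have h3 : lam * (k : ℂ) ^ 2 = 2 * k := by
    have : lam * (lam * (k : ℂ) ^ 2) = lam * (2 * k) := by
      rw [hx] at s3
      linear_combination -s3
    exact mul_left_cancel₀ hlam this
  have hk0 : k = 0 := by
    refine nat_aux (N := M + σ + k) (M := M + σ) rfl (by omega) ?_
    have : (k : ℂ) ^ 2 = ((k : ℂ) ^ 2) * (lam * ((M + σ + k : ℕ) : ℂ)) := by rw [hN]; ring
    rw [this]
    linear_combination ((M + σ + k : ℕ) : ℂ) * h3
  have hZ : poles Q = ∅ := Finset.card_eq_zero.1 (hk ▸ hk0)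
  have hσ0 : σ = 0 := by rw [hσ, hZ]; rfl
  have hc0 : (1 - lam * (M : ℂ)) = 0 := by
    rw [hk0, hσ0] at s1
    push_cast at s1
    linear_combination -s1
  refine finish (a := a) (b := b) hQ (NA_ne hcop hQ hnc sha) (NA_ne hcop hQ hnc shb)
    (FB_ne hcop hnc b) (fun w hw => by rw [s1' hZ w hw, hc0]) (l := cobounded ℂ)
    (eventually_diff (P := P) (lam := lam) hQ).1 pi

end

/-- **The sharing theorem** for `P / Q`. -/
theorem core (hcop : IsCoprime P Q) (hQ : Q ≠ 0) (hlam : lam ≠ 0) (hab : a ≠ b) (ha : a ≠ 0)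
    (hb : b ≠ 0) (hnc : ¬ (P.natDegree = 0 ∧ Q.natDegree = 0))
    (sha : ∀ w, w ≠ 0 → Q.eval w ≠ 0 → (quo P Q w = a ↔ Dop lam (quo P Q) w = a))
    (shb : ∀ w, w ≠ 0 → Q.eval w ≠ 0 → (quo P Q w = b ↔ Dop lam (quo P Q) w = b)) :
    P * Q = NS lam P Q := by
  by_cases h0 : Q.eval 0 = 0
  · by_cases hi : Q.natDegree < P.natDegree
    · exfalso
      have p0 := end0_pole hcop hQ hlam h0
      have pi := inf_pole hQ hlam hi
      have s1 := (phi_sum hcop hQ hlam hab hnc sha shb (p0.lim (a := a) (b := b)).1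
        (pi.lim (a := a) (b := b)).1).1
      have hm0 := mult_pos hQ h0
      have hcast : ∑ p ∈ poles Q, ((Q.rootMultiplicity p : ℂ) + 1) =
        ((∑ p ∈ poles Q, (Q.rootMultiplicity p + 1) : ℕ) : ℂ) := by push_cast; rfl
      rw [hcast] at s1
      generalize ∑ p ∈ poles Q, (Q.rootMultiplicity p + 1) = s at s1
      have : lam * ((Q.rootMultiplicity 0 + (P.natDegree - Q.natDegree) + s : ℕ) : ℂ) = 0 := by
        rw [Nat.cast_add, Nat.cast_add]
        linear_combination s1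
      rcases mul_eq_zero.1 this with h | h
      · exact hlam h
      · have := Nat.cast_eq_zero.1 h
        omega
    · obtain ⟨c, hc⟩ := inf_fin (P := P) (lam := lam) hQ (not_lt.1 hi)
      by_cases hcb : c = b
      · exact caseB hcop hQ hlam hab.symm hb ha hnc shb sha h0 hc (fun h => hab (h ▸ hcb))
      · exact caseB hcop hQ hlam hab ha hb hnc sha shb h0 hc hcb
  · have f0 := end0_fin (P := P) (lam := lam) h0
    by_cases hi : Q.natDegree < P.natDegree
    · by_cases hcb : quo P Q 0 = b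
      · exact caseC hcop hQ hlam hab.symm hb ha hnc shb sha hi f0 (fun h => hab (h ▸ hcb))
      · exact caseC hcop hQ hlam hab ha hb hnc sha shb hi f0 hcb
    · exfalso
      obtain ⟨c, hc⟩ := inf_fin (P := P) (lam := lam) hQ (not_lt.1 hi)
      have s1 := (phi_sum hcop hQ hlam hab hnc sha shb (f0.phi ha hb) (hc.phi ha hb)).1
      have hcast : ∑ p ∈ poles Q, ((Q.rootMultiplicity p : ℂ) + 1) =
        ((∑ p ∈ poles Q, (Q.rootMultiplicity p + 1) : ℕ) : ℂ) := by push_cast; rfl
      rw [hcast, zero_sub, eq_comm, neg_eq_zero] at s1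
      have h2 := Nat.cast_eq_zero.1 ((mul_eq_zero.1 s1).resolve_left hlam)
      have hZ : poles Q = ∅ := by
        by_contra hne
        obtain ⟨p, hp⟩ := Finset.nonempty_iff_ne_empty.2 hne
        have := (Finset.sum_eq_zero_iff.1 h2) p hp
        omega
      have hQ0 : Q.natDegree = 0 := by
        by_contra hd
        obtain ⟨z, hz⟩ := IsAlgClosed.exists_root Q (by
          intro h
          exact hd (natDegree_eq_zero_iff_degree_le_zero.2 h.le))
        by_cases hz0 : z = 0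
        · subst hz0
          exact h0 hz
        · have : z ∈ poles Q := (mem_poles hQ).2 ⟨hz0, hz⟩
          rw [hZ] at this
          simp at this
      exact hnc ⟨by omega, hQ0⟩

end Pool.Agent.R237.SH
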