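import Pool.Agent.R237.SH.Pole

/-! Behaviour at the ends `0` and `∞`. -/

set_option autoImplicit false

open Set Filter Topology Asymptotics Bornology

namespace Pool.Agent.R237.SH

/-- `f` is finite at the end `l`, with value `c`. -/
def Fin' (l : Filter ℂ) (lam : ℂ) (f : ℂ → ℂ) (c : ℂ) : Prop :=
  Tendsto f l (𝓝 c) ∧ Tendsto (Dop lam f) l (𝓝 0) ∧ Tendsto (Dop lam (Dop lam f)) l (𝓝 0)

/-- `f` has a pole at the end `l`. -/
def Pol (l : Filter ℂ) (lam : ℂ) (f : ℂ → ℂ) (k : ℂ) : Prop :=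
  k ≠ 0 ∧ Tendsto f l (cobounded ℂ) ∧ Tendsto (fun w => Dop lam f w / f w) l (𝓝 k) ∧
    Tendsto (fun w => Dop lam (Dop lam f) w / Dop lam f w) l (𝓝 k)

theorem Fin'.phi {l : Filter ℂ} {lam a b c : ℂ} {f : ℂ → ℂ} (h : Fin' l lam f c) (ha : a ≠ 0)
    (hb : b ≠ 0) : Tendsto (phi lam a b f) l (𝓝 0) := by
  obtain ⟨h1, h2, h3⟩ := h
  have h4 := (h3.mul (h1.sub h2)).div ((h2.sub (tendsto_const_nhds (x := a))).mul
    (h2.sub (tendsto_const_nhds (x := b)))) (by simp [ha, hb])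
  rw [zero_mul, zero_div] at h4
  exact h4

theorem Fin'.psi {l : Filter ℂ} {lam b c : ℂ} {f : ℂ → ℂ} (h : Fin' l lam f c) (hc : c ≠ b) :
    Tendsto (psi lam b f) l (𝓝 (c / (c - b))) := by
  obtain ⟨h1, h2, h3⟩ := h
  have h4 := (h1.sub h2).div (h1.sub (tendsto_const_nhds (x := b))) (sub_ne_zero.2 hc)
  rw [sub_zero] at h4
  exact h4

theorem Pol.lim {l : Filter ℂ} {lam a b k : ℂ} {f : ℂ → ℂ} (h : Pol l lam f k) :
    Tendsto (phi lam a b f) l (𝓝 (1 - k)) ∧ Tendsto (Pool.Agent.R237.SH.psi lam b f) l (𝓝 (1 - k)) := by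
  obtain ⟨hk, h1, h2, h3⟩ := h
  have hinv : Tendsto (fun w => (f w)⁻¹) l (𝓝 0) := tendsto_inv₀_cobounded.comp h1
  have hf0 : ∀ᶠ w in l, f w ≠ 0 := by
    have := h1.eventually (eventually_ne_cobounded (0 : ℂ))
    exact this
  have hS0 : ∀ᶠ w in l, Dop lam f w ≠ 0 := by
    filter_upwards [h2.eventually_ne hk] with w hw h0
    rw [h0, zero_div] at hw
    exact hw rfl
  have hfS : Tendsto (fun w => f w / Dop lam f w) l (𝓝 k⁻¹) := by
    refine (h2.inv₀ hk).congr (fun w => ?_)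
    rw [inv_div]
  have hcS : ∀ c : ℂ, Tendsto (fun w => c / Dop lam f w) l (𝓝 0) := by
    intro c
    have : Tendsto (fun w => c * (f w / Dop lam f w) * (f w)⁻¹) l (𝓝 (c * k⁻¹ * 0)) :=
      (hfS.const_mul c).mul hinv
    rw [mul_zero] at this
    refine this.congr' ?_
    filter_upwards [hf0] with w hw
    field_simp
  constructor
  · have h4 : Tendsto (fun w => (Dop lam (Dop lam f) w / Dop lam f w) * (f w / Dop lam f w - 1) /
        ((1 - a / Dop lam f w) * (1 - b / Dop lam f w))) l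
        (𝓝 (k * (k⁻¹ - 1) / ((1 - 0) * (1 - 0)))) :=
      (h3.mul (hfS.sub tendsto_const_nhds)).div
        ((tendsto_const_nhds.sub (hcS a)).mul (tendsto_const_nhds.sub (hcS b))) (by simp)
    have e : k * (k⁻¹ - 1) / ((1 - 0) * (1 - 0)) = 1 - k := by
      rw [sub_zero, one_mul, div_one, mul_sub, mul_inv_cancel₀ hk, mul_one]
    rw [e] at h4
    refine h4.congr' ?_
    filter_upwards [hS0] with w hw
    simp only [Pool.Agent.R237.SH.phi]
    generalize Dop lam (Dop lam f) w = T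
    generalize Dop lam f w = S at hw
    have e1 : ∀ c : ℂ, 1 - c / S = (S - c) / S := fun c => by field_simp
    have e2 : f w / S - 1 = (f w - S) / S := by field_simp
    rw [e1, e1, e2, div_mul_div_comm, div_mul_div_comm, div_div_div_cancel_right₀]
    exact mul_ne_zero hw hw
  · have h4 : Tendsto (fun w => (1 - Dop lam f w / f w) / (1 - b * (f w)⁻¹)) l
        (𝓝 ((1 - k) / (1 - b * 0))) :=
      (tendsto_const_nhds.sub h2).div (tendsto_const_nhds.sub (hinv.const_mul b)) (by simp)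
    rw [mul_zero, sub_zero, div_one] at h4
    refine h4.congr' ?_
    filter_upwards [hf0] with w hw
    simp only [Pool.Agent.R237.SH.psi]
    have e1 : 1 - b * (f w)⁻¹ = (f w - b) / f w := by field_simp
    have e2 : 1 - Dop lam f w / f w = (f w - Dop lam f w) / f w := by field_simp
    rw [e1, e2, div_div_div_cancel_right₀ hw]

/-- `D` respects equality near a point. -/
theorem Dop_congr {lam p : ℂ} {f g : ℂ → ℂ} (h : f =ᶠ[𝓝[≠] p] g) :
    Dop lam f =ᶠ[𝓝[≠] p] Dop lam g := by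
  filter_upwards [h.nhdsNE_deriv] with w hw
  simp only [Dop, hw]

theorem end_fin {mu : ℂ} {g u : ℂ → ℂ} (hu : AnalyticAt ℂ u 0) (hg : g =ᶠ[𝓝[≠] 0] u) :
    Fin' (𝓝[≠] 0) mu g (u 0) := by
  have h1 := Dop_congr (lam := mu) hg
  have h2 := Dop_congr (lam := mu) h1
  have ha : AnalyticAt ℂ (Dop mu u) 0 := (analyticAt_const.mul analyticAt_id).mul hu.deriv
  have haa : AnalyticAt ℂ (Dop mu (Dop mu u)) 0 := (analyticAt_const.mul analyticAt_id).mul ha.deriv
  refine ⟨(hu.continuousAt.tendsto.mono_left nhdsWithin_le_nhds).congr' hg.symm, ?_, ?_⟩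
  · have := (ha.continuousAt.tendsto.mono_left nhdsWithin_le_nhds).congr' h1.symm
    simpa [Dop] using this
  · have := (haa.continuousAt.tendsto.mono_left nhdsWithin_le_nhds).congr' h2.symm
    simpa [Dop] using this

/-- One step at a pole at `0`. -/
theorem end_step {mu : ℂ} {g u : ℂ → ℂ} {m : ℕ} (hu : AnalyticAt ℂ u 0)
    (hg : g =ᶠ[𝓝[≠] 0] fun w => u w / w ^ m) :
    Dop mu g =ᶠ[𝓝[≠] 0] fun w => (mu * (-(m : ℂ) * u w + w * deriv u w)) / w ^ m := by
  have h := pole_deriv (p := 0) (lam := mu) hu (by simpa using hg)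
  filter_upwards [h, self_mem_nhdsWithin] with w hw1 hw2
  have hne : w ≠ 0 := hw2
  simp only [Dop]
  rw [hw1]
  simp only [sub_zero]
  field_simp
  ring

theorem end_pole {mu : ℂ} {g u : ℂ → ℂ} {m : ℕ} (hmu : mu ≠ 0) (hm : m ≠ 0) (hu : AnalyticAt ℂ u 0)
    (hu0 : u 0 ≠ 0) (hg : g =ᶠ[𝓝[≠] 0] fun w => u w / w ^ m) :
    Pol (𝓝[≠] 0) mu g (-(mu * m)) := by
  have hm' : (m : ℂ) ≠ 0 := Nat.cast_ne_zero.2 hm
  set v : ℂ → ℂ := fun w => mu * (-(m : ℂ) * u w + w * deriv u w) with hv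
  have hva : AnalyticAt ℂ v 0 :=
    analyticAt_const.mul ((analyticAt_const.mul hu).add (analyticAt_id.mul hu.deriv))
  set t : ℂ → ℂ := fun w => mu * (-(m : ℂ) * v w + w * deriv v w) with ht
  have hta : AnalyticAt ℂ t 0 :=
    analyticAt_const.mul ((analyticAt_const.mul hva).add (analyticAt_id.mul hva.deriv))
  have h1 : Dop mu g =ᶠ[𝓝[≠] 0] fun w => v w / w ^ m := end_step hu hg
  have h2 : Dop mu (Dop mu g) =ᶠ[𝓝[≠] 0] fun w => t w / w ^ m := end_step hva h1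
  have hv0 : v 0 = -(mu * m) * u 0 := by simp [hv]; ring
  have ht0 : t 0 = -(mu * m) * v 0 := by simp [ht]; ring
  have hk : -(mu * (m : ℂ)) ≠ 0 := neg_ne_zero.2 (mul_ne_zero hmu hm')
  have hv0' : v 0 ≠ 0 := by rw [hv0]; exact mul_ne_zero hk hu0
  have hut : Tendsto u (𝓝[≠] 0) (𝓝 (u 0)) := hu.continuousAt.tendsto.mono_left nhdsWithin_le_nhds
  have hvt : Tendsto v (𝓝[≠] 0) (𝓝 (v 0)) := hva.continuousAt.tendsto.mono_left nhdsWithin_le_nhds
  have htt : Tendsto t (𝓝[≠] 0) (𝓝 (t 0)) := hta.continuousAt.tendsto.mono_left nhdsWithin_le_nhds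
  refine ⟨hk, ?_, ?_, ?_⟩
  · have h3 : Tendsto (fun w : ℂ => u w / w ^ m) (𝓝[≠] 0) (cobounded ℂ) := by
      have h4 : Tendsto (fun w : ℂ => (w ^ m)⁻¹) (𝓝[≠] 0) (cobounded ℂ) := by
        refine tendsto_inv₀_nhdsNE_zero.comp ?_
        refine tendsto_nhdsWithin_iff.2 ⟨?_, ?_⟩
        · have : Tendsto (fun w : ℂ => w ^ m) (𝓝 0) (𝓝 ((0 : ℂ) ^ m)) := (continuous_pow m).tendsto 0
          rw [zero_pow hm] at this
          exact this.mono_left nhdsWithin_le_nhds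
        · filter_upwards [self_mem_nhdsWithin] with w hw
          exact pow_ne_zero _ hw
      have h5 := tendsto_norm_cobounded_atTop.comp h4
      rw [← tendsto_norm_atTop_iff_cobounded]
      have h6 : Tendsto (fun w => ‖u w‖ * ‖(w ^ m)⁻¹‖) (𝓝[≠] 0) atTop :=
        Tendsto.pos_mul_atTop (norm_pos_iff.2 hu0) hut.norm h5
      refine h6.congr (fun w => ?_)
      rw [← norm_mul, div_eq_mul_inv]
    exact h3.congr' hg.symm
  · have h3 := hvt.div hut hu0
    have e : v 0 / u 0 = -(mu * m) := by rw [hv0]; field_simp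
    rw [e] at h3
    refine h3.congr' ?_
    filter_upwards [hg, h1, self_mem_nhdsWithin] with w a1 a2 a3
    have hne : w ^ m ≠ 0 := pow_ne_zero _ a3
    simp only [Pi.div_apply]
    rw [a1, a2, div_div_div_cancel_right₀ hne]
  · have h3 := htt.div hvt hv0'
    have e : t 0 / v 0 = -(mu * m) := by rw [ht0]; field_simp
    rw [e] at h3
    refine h3.congr' ?_
    filter_upwards [h1, h2, self_mem_nhdsWithin] with w a1 a2 a3
    have hne : w ^ m ≠ 0 := pow_ne_zero _ a3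
    simp only [Pi.div_apply]
    rw [a1, a2, div_div_div_cancel_right₀ hne]

/-- The operator `D` in the coordinate `1/w`. -/
theorem Dop_inv {lam : ℂ} {f : ℂ → ℂ} (hf : ∀ᶠ w in cobounded ℂ, DifferentiableAt ℂ f w) :
    Dop (-lam) (fun v => f v⁻¹) =ᶠ[𝓝[≠] 0] fun v => Dop lam f v⁻¹ := by
  filter_upwards [tendsto_inv₀_nhdsNE_zero.eventually hf, self_mem_nhdsWithin] with v h1 h2
  have hne : v ≠ 0 := h2
  have hd : HasDerivAt (fun v => f v⁻¹) (deriv f v⁻¹ * (-(v ^ 2)⁻¹)) v :=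
    h1.hasDerivAt.comp v (hasDerivAt_inv hne)
  simp only [Dop]
  rw [hd.deriv]
  field_simp

theorem inf_transfer {lam : ℂ} {f : ℂ → ℂ} (hf : ∀ᶠ w in cobounded ℂ, DifferentiableAt ℂ f w)
    (hS : ∀ᶠ w in cobounded ℂ, DifferentiableAt ℂ (Dop lam f) w) :
    (∀ c, Fin' (𝓝[≠] 0) (-lam) (fun v => f v⁻¹) c → Fin' (cobounded ℂ) lam f c) ∧
    (∀ k, Pol (𝓝[≠] 0) (-lam) (fun v => f v⁻¹) k → Pol (cobounded ℂ) lam f k) := by
  have h1 := Dop_inv (lam := lam) hf
  have h2 : Dop (-lam) (Dop (-lam) (fun v => f v⁻¹)) =ᶠ[𝓝[≠] 0]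
      fun v => Dop lam (Dop lam f) v⁻¹ := (Dop_congr h1).trans (Dop_inv hS)
  have hi : Tendsto (fun w : ℂ => w⁻¹) (cobounded ℂ) (𝓝[≠] 0) := tendsto_inv₀_cobounded'
  have e1 : ∀ᶠ w in cobounded ℂ, Dop (-lam) (fun v => f v⁻¹) w⁻¹ = Dop lam f w := by
    filter_upwards [hi.eventually h1] with w hw
    rw [hw, inv_inv]
  have e2 : ∀ᶠ w in cobounded ℂ, Dop (-lam) (Dop (-lam) (fun v => f v⁻¹)) w⁻¹
      = Dop lam (Dop lam f) w := by
    filter_upwards [hi.eventually h2] with w hw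
    rw [hw, inv_inv]
  constructor
  · rintro c ⟨a1, a2, a3⟩
    refine ⟨(a1.comp hi).congr (fun w => by simp), (a2.comp hi).congr' ?_, (a3.comp hi).congr' ?_⟩
    · filter_upwards [e1] with w hw using hw
    · filter_upwards [e2] with w hw using hw
  · rintro k ⟨a0, a1, a2, a3⟩
    refine ⟨a0, (a1.comp hi).congr (fun w => by simp), (a2.comp hi).congr' ?_, (a3.comp hi).congr' ?_⟩
    · filter_upwards [e1] with w hw
      simp only [Function.comp_apply, hw, inv_inv]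
    · filter_upwards [e1, e2] with w hw hw2
      simp only [Function.comp_apply, hw, hw2]

end Pool.Agent.R237.SH
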