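import Pool.Agent.R237.SH.Main2

/-! The conclusion for rational functions `P / Q`. -/

set_option autoImplicit false

open Set Filter Topology Asymptotics Bornology Polynomial

namespace Pool.Agent.R237.SH

variable {P Q : ℂ[X]} {lam a b : ℂ}

theorem end0_pole (hcop : IsCoprime P Q) (hQ : Q ≠ 0) (hlam : lam ≠ 0) (h : Q.eval 0 = 0) :
    Pol (𝓝[≠] 0) lam (quo P Q) (-(lam * (Q.rootMultiplicity 0 : ℕ))) := by
  obtain ⟨u, hu, hu0, huw⟩ := local_form hcop hQ h
  refine end_pole hlam (mult_pos hQ h) hu hu0 (Filter.Eventually.of_forall (fun w => ?_))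
  rw [huw w, sub_zero]

theorem end0_fin (h : Q.eval 0 ≠ 0) : Fin' (𝓝[≠] 0) lam (quo P Q) (quo P Q 0) :=
  end_fin (quo_analyticAt h) (EventuallyEq.refl _ _)

theorem eventually_notMem (E : Finset ℂ) : ∀ᶠ w in cobounded ℂ, w ∉ E := by
  have h := (E.finite_toSet).isBounded
  have h2 := isBounded_def.1 h
  filter_upwards [h2] with w hw
  simpa using hw

theorem eventually_diff (hQ : Q ≠ 0) : (∀ᶠ w in cobounded ℂ, Q.eval w ≠ 0) ∧
    (∀ᶠ w in cobounded ℂ, DifferentiableAt ℂ (quo P Q) w) ∧
    (∀ᶠ w in cobounded ℂ, DifferentiableAt ℂ (Dop lam (quo P Q)) w) := by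
  have h : ∀ᶠ w in cobounded ℂ, Q.eval w ≠ 0 := by
    filter_upwards [eventually_notMem Q.roots.toFinset] with w hw h
    exact hw (by simp [hQ, h])
  refine ⟨h, ?_, ?_⟩
  · filter_upwards [h] with w hw using (quo_analyticAt hw).differentiableAt
  · filter_upwards [h] with w hw using (Dop_analyticAt (quo_analyticAt hw)).differentiableAt

theorem eval_inv (R : ℂ[X]) {v : ℂ} (hv : v ≠ 0) :
    R.eval v⁻¹ = R.reverse.eval v / v ^ R.natDegree := by
  have : Invertible v⁻¹ := invertibleOfNonzero (inv_ne_zero hv)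
  have h := eval₂_reverse_mul_pow (RingHom.id ℂ) v⁻¹ R
  rw [invOf_eq_inv, inv_inv] at h
  simp only [eval₂_id] at h
  rw [← h, inv_pow, div_eq_mul_inv]

theorem reverse_eval_zero {R : ℂ[X]} (hR : R ≠ 0) : R.reverse.eval 0 ≠ 0 := by
  rw [← coeff_zero_eq_eval_zero, coeff_zero_reverse]
  exact leadingCoeff_ne_zero.2 hR

theorem inf_pole (hQ : Q ≠ 0) (hlam : lam ≠ 0) (h : Q.natDegree < P.natDegree) :
    Pol (cobounded ℂ) lam (quo P Q) (lam * (P.natDegree - Q.natDegree : ℕ)) := by
  have hP : P ≠ 0 := by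
    rintro rfl
    simp at h
  obtain ⟨_, h1, h2⟩ := eventually_diff (P := P) (lam := lam) hQ
  refine (inf_transfer h1 h2).2 _ ?_
  have h3 := end_pole (mu := -lam) (g := fun v => quo P Q v⁻¹) (m := P.natDegree - Q.natDegree)
    (u := fun v => P.reverse.eval v / Q.reverse.eval v) (neg_ne_zero.2 hlam) (by omega)
    ((analyticAt_poly _ 0).div (analyticAt_poly _ 0) (reverse_eval_zero hQ))
    (div_ne_zero (reverse_eval_zero hP) (reverse_eval_zero hQ)) ?_
  · rw [neg_mul, neg_neg] at h3
    exact h3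
  · filter_upwards [self_mem_nhdsWithin] with v hv
    have hv' : v ≠ 0 := hv
    simp only [quo]
    rw [eval_inv P hv', eval_inv Q hv']
    have e : v ^ P.natDegree = v ^ Q.natDegree * v ^ (P.natDegree - Q.natDegree) := by
      rw [← pow_add]; congr 1; omega
    rw [e]
    field_simp

theorem inf_fin (hQ : Q ≠ 0) (h : P.natDegree ≤ Q.natDegree) :
    ∃ c, Fin' (cobounded ℂ) lam (quo P Q) c := by
  obtain ⟨_, h1, h2⟩ := eventually_diff (P := P) (lam := lam) hQ
  refine ⟨_, (inf_transfer h1 h2).1 _ (end_fin (u := fun v => v ^ (Q.natDegree - P.natDegree) *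
    P.reverse.eval v / Q.reverse.eval v) (((analyticAt_id.pow _).mul (analyticAt_poly _ 0)).div
    (analyticAt_poly _ 0) (reverse_eval_zero hQ)) ?_)⟩
  filter_upwards [self_mem_nhdsWithin] with v hv
  have hv' : v ≠ 0 := hv
  simp only [quo]
  rw [eval_inv P hv', eval_inv Q hv']
  have e : v ^ Q.natDegree = v ^ P.natDegree * v ^ (Q.natDegree - P.natDegree) := by
    rw [← pow_add]; congr 1; omega
  rw [e]
  field_simp

/-- Without poles in `ℂ*`, if `phi` vanishes off the exceptional set, then `D f = f`. -/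
theorem finish (hQ : Q ≠ 0) (hNA : NS lam P Q - C a * Q ^ 2 ≠ 0)
    (hNB : NS lam P Q - C b * Q ^ 2 ≠ 0) (hFB : P - C b * Q ≠ 0)
    (hphi : ∀ w, w ∉ exc lam P Q a b → phi lam a b (quo P Q) w = 0)
    {l : Filter ℂ} [l.NeBot] (hl : ∀ᶠ w in l, Q.eval w ≠ 0) {k : ℂ} (hpol : Pol l lam (quo P Q) k) :
    P * Q = NS lam P Q := by
  by_contra hne
  have hL : P * Q - NS lam P Q ≠ 0 := sub_ne_zero.2 hne
  -- the second derivative vanishes at infinitely many points
  set NT : ℂ[X] := derivative (NS lam P Q) * Q ^ 2 - NS lam P Q * derivative (Q ^ 2) with hNT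
  have hder : ∀ w, Q.eval w ≠ 0 → Dop lam (Dop lam (quo P Q)) w =
      lam * w * (NT.eval w / ((Q ^ 2).eval w) ^ 2) := by
    intro w hw
    have hev : Dop lam (quo P Q) =ᶠ[𝓝 w] fun z => (NS lam P Q).eval z / (Q ^ 2).eval z := by
      have := (analyticAt_poly Q w).continuousAt.eventually_ne hw
      filter_upwards [this] with z hz
      rw [Dop_quo hz, eval_pow]
    have hQ2 : (Q ^ 2).eval w ≠ 0 := by rw [eval_pow]; exact pow_ne_zero _ hw
    have h : HasDerivAt (fun z => (NS lam P Q).eval z / (Q ^ 2).eval z)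
        (((derivative (NS lam P Q)).eval w * (Q ^ 2).eval w -
          (NS lam P Q).eval w * (derivative (Q ^ 2)).eval w) / ((Q ^ 2).eval w) ^ 2) w :=
      ((NS lam P Q).hasDerivAt w).div ((Q ^ 2).hasDerivAt w) hQ2
    show lam * w * deriv (Dop lam (quo P Q)) w = _
    rw [hev.deriv_eq, h.deriv, hNT]
    simp only [eval_sub, eval_mul]
  have hNT0 : NT = 0 := by
    refine poly_zero_of_forall (S := {w | w ∉ exc lam P Q a b ∪ (P * Q - NS lam P Q).roots.toFinset ∪ {0}})
      (infinite_compl _) ?_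
    · exact if hlam : lam = 0 then fun w _ => by simp [hNT, NS, hlam] else fun w hw => by
        simp only [Finset.mem_union, Finset.mem_singleton, Multiset.mem_toFinset, mem_roots hL,
          IsRoot.def, not_or, Set.mem_ofPred_eq] at hw
        obtain ⟨⟨h1, h2⟩, h3⟩ := hw
        obtain ⟨w1, w2, w3, w4, w5⟩ := notMem_exc hQ hNA hNB hFB h1
        have h4 := hphi w h1
        simp only [phi] at h4
        rw [div_eq_zero_iff] at h4
        rcases h4 with h4 | h4
        · rcases mul_eq_zero.1 h4 with h5 | h5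
          · rw [hder w w2] at h5
            have h6 : NT.eval w / ((Q ^ 2).eval w) ^ 2 = 0 :=
              (mul_eq_zero.1 h5).resolve_left (mul_ne_zero hlam w1)
            rw [div_eq_zero_iff] at h6
            refine h6.resolve_right ?_
            rw [eval_pow]
            exact pow_ne_zero _ (pow_ne_zero _ w2)
          · exfalso
            apply h2
            rw [Dop_quo w2, quo] at h5
            rw [eval_sub, eval_mul]
            field_simp at h5
            linear_combination h5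
        · exact absurd h4 (mul_ne_zero (sub_ne_zero.2 w3) (sub_ne_zero.2 w4))
  obtain ⟨hk, _, _, h3⟩ := hpol
  refine hk (tendsto_nhds_unique h3 ?_)
  refine tendsto_const_nhds.congr' ?_
  filter_upwards [hl] with w hw
  rw [hder w hw, hNT0]
  simp

end Pool.Agent.R237.SH
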