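import Mathlib

/-! Liouville's theorem with finitely many exceptional points. -/

set_option autoImplicit false

open Set Filter Topology Asymptotics

namespace Pool.Agent.R237.SH

/-- A function which is differentiable off a finite set, bounded near the points of this set, and has
a limit at infinity, is constant off this set. -/
theorem liouville_exc (E : Finset ℂ) : ∀ (Y : ℂ → ℂ), (∀ w, w ∉ E → DifferentiableAt ℂ Y w) →
    (∀ e ∈ E, Y =O[𝓝[≠] e] (fun _ => (1 : ℂ))) → ∀ (c : ℂ), Tendsto Y (cocompact ℂ) (𝓝 c) →
    ∀ w, w ∉ E → Y w = c := by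
  classical
  induction E using Finset.induction_on with
  | empty =>
    intro Y hY _ c hc w _
    have h : Differentiable ℂ Y := fun z => hY z (by simp)
    exact h.apply_eq_of_tendsto_cocompact w hc
  | insert e E he ih =>
    intro Y hY hb c hc w hw
    set Y' := Function.update Y e (limUnder (𝓝[≠] e) Y) with hY'
    have hopen : IsOpen ((E : Set ℂ)ᶜ) := (Finset.finite_toSet E).isClosed.isOpen_compl
    have hs : ((E : Set ℂ)ᶜ) ∈ 𝓝 e := hopen.mem_nhds (by simpa using he)
    have hd : DifferentiableOn ℂ Y ((E : Set ℂ)ᶜ \ {e}) := by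
      intro z hz
      refine (hY z ?_).differentiableWithinAt
      simp only [Finset.mem_insert, not_or]
      exact ⟨hz.2, by simpa using hz.1⟩
    have hO := hb e (Finset.mem_insert_self _ _)
    have ho : (fun z => Y z - Y e) =o[𝓝[≠] e] fun z => (z - e)⁻¹ := by
      have h1 : (fun z => Y z - Y e) =O[𝓝[≠] e] (fun _ => (1 : ℂ)) :=
        hO.sub (isBigO_const_const _ one_ne_zero _)
      refine h1.trans_isLittleO ?_
      rw [isLittleO_one_left_iff]
      have h2 : Tendsto (fun z : ℂ => z - e) (𝓝[≠] e) (𝓝[≠] 0) := by
        refine tendsto_nhdsWithin_iff.2 ⟨?_, ?_⟩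
        · have : Tendsto (fun z : ℂ => z - e) (𝓝 e) (𝓝 (e - e)) := (continuous_id.sub continuous_const).tendsto e
          rw [sub_self] at this
          exact this.mono_left nhdsWithin_le_nhds
        · filter_upwards [self_mem_nhdsWithin] with z hz
          simpa [sub_eq_zero] using hz
      exact (tendsto_norm_cobounded_atTop (E := ℂ)).comp ((tendsto_inv₀_nhdsNE_zero (α := ℂ)).comp h2)
    have hdiff : DifferentiableOn ℂ Y' ((E : Set ℂ)ᶜ) :=
      Complex.differentiableOn_update_limUnder_of_isLittleO hs hd ho
    have hne : w ≠ e := fun h => hw (by rw [h]; exact Finset.mem_insert_self _ _)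
    have hwE : w ∉ E := fun h => hw (Finset.mem_insert_of_mem h)
    have key := ih Y' (fun z hz => hdiff.differentiableAt (hopen.mem_nhds (by simpa using hz)))
      (fun e' he' => ?_) c ?_ w hwE
    · rw [hY', Function.update_of_ne hne] at key
      exact key
    · have hee : e' ≠ e := fun h => he (h ▸ he')
      refine (hb e' (Finset.mem_insert_of_mem he')).congr' ?_ (EventuallyEq.refl _ _)
      have : ∀ᶠ z in 𝓝[≠] e', z ≠ e := (eventually_ne_nhds hee).filter_mono nhdsWithin_le_nhds
      filter_upwards [this] with z hz
      rw [hY', Function.update_of_ne hz]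
    · refine hc.congr' ?_
      have : ∀ᶠ z : ℂ in cocompact ℂ, z ≠ e := by
        have := (isCompact_singleton (x := e)).compl_mem_cocompact
        filter_upwards [this] with z hz
        simpa using hz
      filter_upwards [this] with z hz
      rw [hY', Function.update_of_ne hz]

end Pool.Agent.R237.SH
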