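import Mathlib

/-! Local analysis at a pole: principal parts of the auxiliary functions. -/

set_option autoImplicit false

open Set Filter Topology Asymptotics

namespace Pool.Agent.R237.SH

/-- If `g` is `u / (w-p)^m` near `p`, then `lam w g'` is `v / (w-p)^(m+1)`. -/
theorem pole_deriv {g u : ℂ → ℂ} {p lam : ℂ} {m : ℕ} (hu : AnalyticAt ℂ u p)
    (hg : g =ᶠ[𝓝[≠] p] fun w => u w / (w - p) ^ m) :
    (fun w => lam * w * deriv g w) =ᶠ[𝓝[≠] p]
      fun w => (lam * w * (-(m : ℂ) * u w + (w - p) * deriv u w)) / (w - p) ^ (m + 1) := by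
  have h1 := hg.nhdsNE_deriv
  have h2 : ∀ᶠ w in 𝓝[≠] p, AnalyticAt ℂ u w :=
    hu.eventually_analyticAt.filter_mono nhdsWithin_le_nhds
  filter_upwards [h1, h2, self_mem_nhdsWithin] with w hw1 hw2 hw3
  have hne : w - p ≠ 0 := sub_ne_zero.2 hw3
  have hd : HasDerivAt (fun w => u w / (w - p) ^ m)
      ((deriv u w * (w - p) ^ m - u w * ((m : ℂ) * (w - p) ^ (m - 1) * 1)) / ((w - p) ^ m) ^ 2) w :=
    hw2.differentiableAt.hasDerivAt.div (((hasDerivAt_id w).sub_const p).pow m) (pow_ne_zero _ hne)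
  rw [hw1, hd.deriv]
  rcases m with _ | m
  · simp
    field_simp
  · simp only [Nat.add_sub_cancel]
    field_simp
    push_cast
    ring

/-- The numerator in the previous lemma: its value and derivative at `p`. -/
theorem num_hasDerivAt {u : ℂ → ℂ} {p lam : ℂ} {m : ℂ} (hu : AnalyticAt ℂ u p) :
    HasDerivAt (fun w => lam * w * (-m * u w + (w - p) * deriv u w))
      (lam * (-m * u p) + lam * p * (-m * deriv u p + deriv u p)) p := by
  have h1 : HasDerivAt u (deriv u p) p := hu.differentiableAt.hasDerivAt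
  have h2 : HasDerivAt (deriv u) (deriv (deriv u) p) p := hu.deriv.differentiableAt.hasDerivAt
  have h3 := ((hasDerivAt_id p).const_mul lam).mul
    ((h1.const_mul (-m)).add (((hasDerivAt_id p).sub_const p).mul h2))
  refine h3.congr_deriv ?_
  simp

theorem num_analyticAt {u : ℂ → ℂ} {p lam : ℂ} {m : ℂ} (hu : AnalyticAt ℂ u p) :
    AnalyticAt ℂ (fun w => lam * w * (-m * u w + (w - p) * deriv u w)) p :=
  (analyticAt_const.mul analyticAt_id).mul
    ((analyticAt_const.mul hu).add ((analyticAt_id.sub analyticAt_const).mul hu.deriv))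

/-- Simple pole: subtracting the principal part gives a bounded function. -/
theorem bdd_one {X G : ℂ → ℂ} {p G0 : ℂ} (hG : AnalyticAt ℂ G p) (hG0 : G p = G0)
    (hX : X =ᶠ[𝓝[≠] p] fun w => G w / (w - p)) :
    (fun w => X w - G0 / (w - p)) =O[𝓝[≠] p] (fun _ => (1 : ℂ)) := by
  have h1 : Tendsto (slope G p) (𝓝[≠] p) (𝓝 (deriv G p)) :=
    hasDerivAt_iff_tendsto_slope.1 hG.differentiableAt.hasDerivAt
  refine (h1.isBigO_one ℂ).congr' ?_ (EventuallyEq.refl _ _)
  filter_upwards [hX, self_mem_nhdsWithin] with w hw1 hw2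
  have hne : w - p ≠ 0 := sub_ne_zero.2 hw2
  rw [hw1, slope_def_field, ← hG0]
  field_simp

/-- Double pole: subtracting the principal part gives a bounded function. -/
theorem bdd_two {X G : ℂ → ℂ} {p G0 G1 : ℂ} (hG : AnalyticAt ℂ G p) (hG0 : G p = G0)
    (hG1 : HasDerivAt G G1 p) (hX : X =ᶠ[𝓝[≠] p] fun w => G w / (w - p) ^ 2) :
    (fun w => X w - G0 / (w - p) ^ 2 - G1 / (w - p)) =O[𝓝[≠] p] (fun _ => (1 : ℂ)) := by
  have hds : AnalyticAt ℂ (dslope G p) p := by
    obtain ⟨q, hq⟩ := hG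
    exact ⟨q.fslope, hq.has_fpower_series_dslope_fslope⟩
  have hv : dslope G p p = G1 := by rw [dslope_same, hG1.deriv]
  have key := bdd_one (X := fun w => X w - G0 / (w - p) ^ 2) hds hv ?_
  · exact key
  · filter_upwards [hX, self_mem_nhdsWithin] with w hw1 hw2
    have hne : w - p ≠ 0 := sub_ne_zero.2 hw2
    rw [hw1, dslope_of_ne _ hw2, slope_def_field, ← hG0]
    field_simp

end Pool.Agent.R237.SH
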