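import Pool.Agent.R237.SH.Sum

/-! The main argument for rational functions `P / Q`. -/

set_option autoImplicit false

open Set Filter Topology Asymptotics Bornology Polynomial

namespace Pool.Agent.R237.SH

theorem analyticAt_poly (P : ℂ[X]) (w : ℂ) : AnalyticAt ℂ (fun z => P.eval z) w := by
  have : Differentiable ℂ (fun z => P.eval z) := P.differentiable
  exact this.analyticAt w

/-- the numerator of `D (P/Q)` over `Q^2` -/
noncomputable def NS (lam : ℂ) (P Q : ℂ[X]) : ℂ[X] :=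
  C lam * X * (derivative P * Q - P * derivative Q)

section
variable {P Q : ℂ[X]} {lam a b : ℂ}

/-- the function `P / Q` -/
noncomputable def quo (P Q : ℂ[X]) (w : ℂ) : ℂ := P.eval w / Q.eval w

theorem quo_analyticAt {w : ℂ} (hw : Q.eval w ≠ 0) : AnalyticAt ℂ (quo P Q) w :=
  (analyticAt_poly P w).div (analyticAt_poly Q w) hw

theorem Dop_analyticAt {f : ℂ → ℂ} {w : ℂ} (hf : AnalyticAt ℂ f w) : AnalyticAt ℂ (Dop lam f) w :=
  (analyticAt_const.mul analyticAt_id).mul hf.deriv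

theorem Dop_quo {w : ℂ} (hw : Q.eval w ≠ 0) :
    Dop lam (quo P Q) w = (NS lam P Q).eval w / (Q.eval w) ^ 2 := by
  have h : HasDerivAt (quo P Q) (((derivative P).eval w * Q.eval w - P.eval w * (derivative Q).eval w) /
      (Q.eval w) ^ 2) w := (P.hasDerivAt w).div (Q.hasDerivAt w) hw
  simp only [Dop, NS]
  rw [h.deriv]
  simp
  ring

theorem quo_eq_iff {w c : ℂ} (hw : Q.eval w ≠ 0) : quo P Q w = c ↔ (P - C c * Q).eval w = 0 := by
  simp only [quo, eval_sub, eval_mul, eval_C, sub_eq_zero]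
  rw [div_eq_iff hw]

theorem Dop_eq_iff {w c : ℂ} (hw : Q.eval w ≠ 0) :
    Dop lam (quo P Q) w = c ↔ (NS lam P Q - C c * Q ^ 2).eval w = 0 := by
  rw [Dop_quo hw, div_eq_iff (pow_ne_zero _ hw)]
  simp only [eval_sub, eval_mul, eval_C, eval_pow, sub_eq_zero]

theorem poly_zero_of_forall {R : ℂ[X]} {S : Set ℂ} (hS : S.Infinite) (h : ∀ w ∈ S, R.eval w = 0) :
    R = 0 := by
  by_contra hR
  exact hS ((R.roots.toFinset.finite_toSet).subset (fun w hw => by
    simpa [hR] using h w hw))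

theorem infinite_compl (E : Finset ℂ) : {w : ℂ | w ∉ E}.Infinite :=
  (E.finite_toSet).infinite_compl

theorem FB_ne (hcop : IsCoprime P Q) (hnc : ¬ (P.natDegree = 0 ∧ Q.natDegree = 0)) (c : ℂ) :
    P - C c * Q ≠ 0 := by
  intro h
  have h1 : P = C c * Q := sub_eq_zero.1 h
  have hQu : IsUnit Q := by
    refine hcop.isUnit_of_dvd' ?_ dvd_rfl
    rw [h1]
    exact dvd_mul_left _ _
  have hQ0 : Q.natDegree = 0 := natDegree_eq_zero_of_isUnit hQu
  refine hnc ⟨?_, hQ0⟩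
  have h2 : (C c * Q).natDegree ≤ Q.natDegree := natDegree_C_mul_le c Q
  rw [h1]
  omega

theorem NA_ne (hcop : IsCoprime P Q) (hQ : Q ≠ 0) (hnc : ¬ (P.natDegree = 0 ∧ Q.natDegree = 0)) {c : ℂ}
    (sh : ∀ w, w ≠ 0 → Q.eval w ≠ 0 → (quo P Q w = c ↔ Dop lam (quo P Q) w = c)) :
    NS lam P Q - C c * Q ^ 2 ≠ 0 := by
  intro h
  refine FB_ne hcop hnc c (poly_zero_of_forall (infinite_compl (insert 0 Q.roots.toFinset)) ?_)
  intro w hw
  simp only [Finset.mem_insert, Multiset.mem_toFinset, mem_roots', ne_eq, hQ, not_false_eq_true,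
    IsRoot.def, true_and, not_or, mem_ofPred_eq] at hw
  rw [← quo_eq_iff hw.2, sh w hw.1 hw.2, Dop_eq_iff hw.2, h, eval_zero]

theorem phi_comm (f : ℂ → ℂ) : phi lam a b f = phi lam b a f := by
  funext w
  simp only [phi]
  rw [mul_comm (Dop lam f w - a)]

theorem not_eventually_zero {R : ℂ[X]} (hR : R ≠ 0) (e : ℂ) {g : ℂ → ℂ}
    (hg : ∀ᶠ w in 𝓝 e, g w = 0 → R.eval w = 0) : ¬ ∀ᶠ w in 𝓝 e, g w = 0 := by
  intro h
  have h1 : ∀ᶠ w in 𝓝[≠] e, R.eval w = 0 :=
    ((h.and hg).mono fun w hw => hw.2 hw.1).filter_mono nhdsWithin_le_nhds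
  have h2 : ∀ᶠ w in 𝓝[≠] e, w ∉ (R.roots.toFinset : Finset ℂ) := by
    have h3 : ((R.roots.toFinset.erase e : Finset ℂ) : Set ℂ)ᶜ ∈ 𝓝 e :=
      (Finset.finite_toSet _).isClosed.isOpen_compl.mem_nhds (by simp)
    filter_upwards [nhdsWithin_le_nhds h3, self_mem_nhdsWithin] with w hw1 hw2 hw3
    exact hw1 (Finset.mem_coe.2 (Finset.mem_erase.2 ⟨hw2, hw3⟩))
  obtain ⟨w, hw1, hw2⟩ := (h1.and h2).exists
  exact hw2 (by simp [hR, hw1])

/-- `phi` is bounded near the points of `ℂ*` which are not poles: first case. -/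
theorem reg_phi_aux (hab : a ≠ b) {e : ℂ} (hQe : Q.eval e ≠ 0)
    (hNA : NS lam P Q - C a * Q ^ 2 ≠ 0) (hSe : Dop lam (quo P Q) e = a) (hfe : quo P Q e = a) :
    phi lam a b (quo P Q) =O[𝓝[≠] e] (fun _ => (1 : ℂ)) := by
  have hf := quo_analyticAt (P := P) hQe
  have hS : AnalyticAt ℂ (Dop lam (quo P Q)) e := Dop_analyticAt hf
  have hQev : ∀ᶠ w in 𝓝 e, Q.eval w ≠ 0 := (analyticAt_poly Q e).continuousAt.eventually_ne hQe
  have hne : ¬ ∀ᶠ w in 𝓝 e, Dop lam (quo P Q) w - a = 0 := by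
    refine not_eventually_zero hNA e ?_
    filter_upwards [hQev] with w hw h
    exact (Dop_eq_iff hw).1 (sub_eq_zero.1 h)
  have h1 := logDeriv_bdd (h := fun w => Dop lam (quo P Q) w - a)
    (L := fun w => quo P Q w - Dop lam (quo P Q) w) (hS.sub analyticAt_const) (hf.sub hS)
    (by simp [hSe, hfe]) hne
  have h2 : (fun w => lam * w / (Dop lam (quo P Q) w - b)) =O[𝓝[≠] e] (fun _ => (1 : ℂ)) := by
    refine isBigO_one_of_continuousAt ?_
    refine ((continuousAt_const.mul continuousAt_id).div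
      (hS.continuousAt.sub continuousAt_const) ?_)
    rw [hSe]
    exact sub_ne_zero.2 hab
  have h3 := h1.mul h2
  simp only [mul_one] at h3
  refine h3.congr_left (fun w => ?_)
  simp only [phi]
  have : deriv (fun w => Dop lam (quo P Q) w - a) w = deriv (Dop lam (quo P Q)) w :=
    deriv_sub_const _
  rw [this]
  have e1 : Dop lam (Dop lam (quo P Q)) w = lam * w * deriv (Dop lam (quo P Q)) w := rfl
  rw [e1, div_mul_div_comm]
  ring

/-- `phi` is bounded near the points of `ℂ*` which are not poles. -/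
theorem reg_phi (hab : a ≠ b) {e : ℂ} (he : e ≠ 0) (hQe : Q.eval e ≠ 0)
    (hNA : NS lam P Q - C a * Q ^ 2 ≠ 0) (hNB : NS lam P Q - C b * Q ^ 2 ≠ 0)
    (sha : ∀ w, w ≠ 0 → Q.eval w ≠ 0 → (quo P Q w = a ↔ Dop lam (quo P Q) w = a))
    (shb : ∀ w, w ≠ 0 → Q.eval w ≠ 0 → (quo P Q w = b ↔ Dop lam (quo P Q) w = b)) :
    phi lam a b (quo P Q) =O[𝓝[≠] e] (fun _ => (1 : ℂ)) := by
  by_cases h1 : Dop lam (quo P Q) e = a
  · exact reg_phi_aux hab hQe hNA h1 ((sha e he hQe).2 h1)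
  by_cases h2 : Dop lam (quo P Q) e = b
  · rw [phi_comm]
    exact reg_phi_aux hab.symm hQe hNB h2 ((shb e he hQe).2 h2)
  have hf := quo_analyticAt (P := P) hQe
  have hS : AnalyticAt ℂ (Dop lam (quo P Q)) e := Dop_analyticAt hf
  have hT : AnalyticAt ℂ (Dop lam (Dop lam (quo P Q))) e := Dop_analyticAt hS
  refine isBigO_one_of_continuousAt ?_
  exact ((hT.continuousAt.mul (hf.continuousAt.sub hS.continuousAt)).div
    ((hS.continuousAt.sub continuousAt_const).mul (hS.continuousAt.sub continuousAt_const))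
    (mul_ne_zero (sub_ne_zero.2 h1) (sub_ne_zero.2 h2)))

theorem reg_psi (hb : b ≠ 0) {e : ℂ} (he : e ≠ 0) (hQe : Q.eval e ≠ 0)
    (hFB : P - C b * Q ≠ 0)
    (shb : ∀ w, w ≠ 0 → Q.eval w ≠ 0 → (quo P Q w = b ↔ Dop lam (quo P Q) w = b)) :
    psi lam b (quo P Q) =O[𝓝[≠] e] (fun _ => (1 : ℂ)) := by
  have hf := quo_analyticAt (P := P) hQe
  have hS : AnalyticAt ℂ (Dop lam (quo P Q)) e := Dop_analyticAt hf
  by_cases h1 : quo P Q e = b
  · have h2 : Dop lam (quo P Q) e = b := (shb e he hQe).1 h1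
    have hd : deriv (quo P Q) e ≠ 0 := by
      intro h
      simp only [Dop, h, mul_zero] at h2
      exact hb h2.symm
    have hQev : ∀ᶠ w in 𝓝 e, Q.eval w ≠ 0 := (analyticAt_poly Q e).continuousAt.eventually_ne hQe
    have hne : ¬ ∀ᶠ w in 𝓝 e, quo P Q w - b = 0 := by
      refine not_eventually_zero hFB e ?_
      filter_upwards [hQev] with w hw h
      exact (quo_eq_iff hw).1 (sub_eq_zero.1 h)
    have h3 := logDeriv_bdd (h := fun w => quo P Q w - b)
      (L := fun w => quo P Q w - Dop lam (quo P Q) w) (hf.sub analyticAt_const) (hf.sub hS)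
      (by simp [h1, h2]) hne
    have h4 : (fun w => (deriv (quo P Q) w)⁻¹) =O[𝓝[≠] e] (fun _ => (1 : ℂ)) :=
      isBigO_one_of_continuousAt (hf.deriv.continuousAt.inv₀ hd)
    have h5 := h3.mul h4
    simp only [mul_one] at h5
    refine h5.congr' ?_ (EventuallyEq.refl _ _)
    have hdev : ∀ᶠ w in 𝓝[≠] e, deriv (quo P Q) w ≠ 0 :=
      (hf.deriv.continuousAt.eventually_ne hd).filter_mono nhdsWithin_le_nhds
    filter_upwards [hdev] with w hw
    have : deriv (fun w => quo P Q w - b) w = deriv (quo P Q) w := deriv_sub_const _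
    rw [this]
    simp only [psi]
    field_simp
  · refine isBigO_one_of_continuousAt ?_
    exact (hf.continuousAt.sub hS.continuousAt).div (hf.continuousAt.sub continuousAt_const)
      (sub_ne_zero.2 h1)

end

end Pool.Agent.R237.SH
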