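import Pool.Agent.R237.SH.Main

/-! The residue sums for rational functions `P / Q`, and the conclusion. -/

set_option autoImplicit false

open Set Filter Topology Asymptotics Bornology Polynomial

namespace Pool.Agent.R237.SH

variable {P Q : ℂ[X]} {lam a b : ℂ}

/-- the poles in `ℂ*` -/
noncomputable def poles (Q : ℂ[X]) : Finset ℂ := Q.roots.toFinset.erase 0

/-- the exceptional set -/
noncomputable def exc (lam : ℂ) (P Q : ℂ[X]) (a b : ℂ) : Finset ℂ :=
  insert 0 (Q.roots.toFinset ∪ ((NS lam P Q - C a * Q ^ 2).roots.toFinset ∪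
    ((NS lam P Q - C b * Q ^ 2).roots.toFinset ∪ (P - C b * Q).roots.toFinset)))

theorem mem_poles (hQ : Q ≠ 0) {p : ℂ} : p ∈ poles Q ↔ p ≠ 0 ∧ Q.eval p = 0 := by
  simp [poles, hQ]

theorem notMem_exc (hQ : Q ≠ 0) (hNA : NS lam P Q - C a * Q ^ 2 ≠ 0)
    (hNB : NS lam P Q - C b * Q ^ 2 ≠ 0) (hFB : P - C b * Q ≠ 0) {w : ℂ}
    (hw : w ∉ exc lam P Q a b) : w ≠ 0 ∧ Q.eval w ≠ 0 ∧ Dop lam (quo P Q) w ≠ a ∧
      Dop lam (quo P Q) w ≠ b ∧ quo P Q w ≠ b := by
  simp only [exc, Finset.mem_insert, Finset.mem_union, Multiset.mem_toFinset, not_or,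
    mem_roots hQ, mem_roots hNA, mem_roots hNB, mem_roots hFB, IsRoot.def] at hw
  obtain ⟨h1, h2, h3, h4, h5⟩ := hw
  refine ⟨h1, h2, ?_, ?_, ?_⟩
  · rw [Ne, Dop_eq_iff h2]; exact h3
  · rw [Ne, Dop_eq_iff h2]; exact h4
  · rw [Ne, quo_eq_iff h2]; exact h5

theorem local_form (hcop : IsCoprime P Q) (hQ : Q ≠ 0) {p : ℂ} (hp : Q.eval p = 0) :
    ∃ u : ℂ → ℂ, AnalyticAt ℂ u p ∧ u p ≠ 0 ∧
      ∀ w, quo P Q w = u w / (w - p) ^ (Q.rootMultiplicity p) := by
  obtain ⟨Q1, h1, h2⟩ := Polynomial.exists_eq_pow_rootMultiplicity_mul_and_not_dvd Q hQ p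
  have hQ1 : Q1.eval p ≠ 0 := by
    intro h
    exact h2 (dvd_iff_isRoot.2 h)
  have hP : P.eval p ≠ 0 := by
    intro h
    obtain ⟨A, B, hAB⟩ := hcop
    have := congrArg (Polynomial.eval p) hAB
    simp [h, hp] at this
  refine ⟨fun w => P.eval w / Q1.eval w, (analyticAt_poly P p).div (analyticAt_poly Q1 p) hQ1,
    div_ne_zero hP hQ1, fun w => ?_⟩
  simp only [quo]
  have : Q.eval w = (w - p) ^ (Q.rootMultiplicity p) * Q1.eval w := by
    conv_lhs => rw [h1]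
    simp
  rw [this, div_div, mul_comm]

theorem mult_pos (hQ : Q ≠ 0) {p : ℂ} (hp : Q.eval p = 0) : Q.rootMultiplicity p ≠ 0 := by
  have := (rootMultiplicity_pos hQ).2 hp
  omega

theorem pole_at (hcop : IsCoprime P Q) (hQ : Q ≠ 0) (hlam : lam ≠ 0) {p : ℂ} (hp0 : p ≠ 0)
    (hp : Q.eval p = 0) :
    (fun w => phi lam a b (quo P Q) w - lam * p * ((Q.rootMultiplicity p : ℂ) + 1) / (w - p))
      =O[𝓝[≠] p] (fun _ => (1 : ℂ)) ∧
    (fun w => psi lam b (quo P Q) w - lam * p * (Q.rootMultiplicity p : ℂ) / (w - p))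
      =O[𝓝[≠] p] (fun _ => (1 : ℂ)) ∧
    (fun w => psi lam b (quo P Q) w * (phi lam a b (quo P Q) w - psi lam b (quo P Q) w)
      - lam ^ 2 * p ^ 2 * (Q.rootMultiplicity p : ℂ) / (w - p) ^ 2
      - lam * p * (2 + lam * (Q.rootMultiplicity p : ℂ)) / (w - p))
      =O[𝓝[≠] p] (fun _ => (1 : ℂ)) := by
  obtain ⟨u, hu, hu0, huw⟩ := local_form hcop hQ hp
  obtain ⟨n, hn⟩ := Nat.exists_eq_succ_of_ne_zero (mult_pos hQ hp)
  rw [hn] at huw ⊢
  have h := pole_main (a := a) (b := b) (n := n) hlam hp0 hu hu0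
    (Filter.Eventually.of_forall huw)
  push_cast
  have e : (n : ℂ) + 1 + 1 = n + 2 := by ring
  simp only [e]
  exact h

section sums

variable (hcop : IsCoprime P Q) (hQ : Q ≠ 0) (hlam : lam ≠ 0) (hab : a ≠ b) (hb : b ≠ 0)
  (hnc : ¬ (P.natDegree = 0 ∧ Q.natDegree = 0))
  (sha : ∀ w, w ≠ 0 → Q.eval w ≠ 0 → (quo P Q w = a ↔ Dop lam (quo P Q) w = a))
  (shb : ∀ w, w ≠ 0 → Q.eval w ≠ 0 → (quo P Q w = b ↔ Dop lam (quo P Q) w = b))
include hcop hQ hlam hab hnc sha shb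

theorem phi_sum {c0 c : ℂ} (h0 : Tendsto (phi lam a b (quo P Q)) (𝓝[≠] 0) (𝓝 c0))
    (hi : Tendsto (phi lam a b (quo P Q)) (cobounded ℂ) (𝓝 c)) :
    c0 = c - lam * ∑ p ∈ poles Q, ((Q.rootMultiplicity p : ℂ) + 1) ∧
      (poles Q = ∅ → ∀ w, w ∉ exc lam P Q a b → phi lam a b (quo P Q) w = c) := by
  have hNA := NA_ne hcop hQ hnc sha
  have hNB := NA_ne hcop hQ hnc shb
  have hFB := FB_ne hcop hnc b
  have key := res_sum (poles Q) (exc lam P Q a b) (by simp [poles])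
    (fun p hp => by
      have := (mem_poles hQ).1 hp
      simp [exc, hQ, this.2]) (by simp [exc])
    (fun p => lam * p * ((Q.rootMultiplicity p : ℂ) + 1)) (fun _ => 0)
    (phi lam a b (quo P Q)) (fun w hw => ?_) (fun e he heZ => ?_) (fun p hp => ?_) hi h0
  · refine ⟨?_, key.2⟩
    rw [key.1, Finset.mul_sum, sub_eq_add_neg, ← Finset.sum_neg_distrib]
    congr 1
    refine Finset.sum_congr rfl (fun p hp => ?_)
    have := ((mem_poles hQ).1 hp).1
    field_simp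
    ring
  · obtain ⟨w1, w2, w3, w4, w5⟩ := notMem_exc hQ hNA hNB hFB hw
    have hf := quo_analyticAt (P := P) w2
    have hS : AnalyticAt ℂ (Dop lam (quo P Q)) w := Dop_analyticAt hf
    have hT : AnalyticAt ℂ (Dop lam (Dop lam (quo P Q))) w := Dop_analyticAt hS
    exact ((hT.mul (hf.sub hS)).div ((hS.sub analyticAt_const).mul (hS.sub analyticAt_const))
      (mul_ne_zero (sub_ne_zero.2 w3) (sub_ne_zero.2 w4))).differentiableAt
  · by_cases he0 : e = 0
    · rw [he0]; exact h0.isBigO_one ℂ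
    · have hQe : Q.eval e ≠ 0 := fun h => heZ ((mem_poles hQ).2 ⟨he0, h⟩)
      exact reg_phi hab he0 hQe hNA hNB sha shb
  · obtain ⟨hp0, hp1⟩ := (mem_poles hQ).1 hp
    refine (pole_at (a := a) (b := b) hcop hQ hlam hp0 hp1).1.congr_left (fun w => ?_)
    simp

include hb

theorem psi_sum {d0 d : ℂ} (h0 : Tendsto (psi lam b (quo P Q)) (𝓝[≠] 0) (𝓝 d0))
    (hi : Tendsto (psi lam b (quo P Q)) (cobounded ℂ) (𝓝 d)) :
    d0 = d - lam * ∑ p ∈ poles Q, (Q.rootMultiplicity p : ℂ) := by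
  have hNA := NA_ne hcop hQ hnc sha
  have hNB := NA_ne hcop hQ hnc shb
  have hFB := FB_ne hcop hnc b
  have key := res_sum (poles Q) (exc lam P Q a b) (by simp [poles])
    (fun p hp => by
      have := (mem_poles hQ).1 hp
      simp [exc, hQ, this.2]) (by simp [exc])
    (fun p => lam * p * (Q.rootMultiplicity p : ℂ)) (fun _ => 0)
    (psi lam b (quo P Q)) (fun w hw => ?_) (fun e he heZ => ?_) (fun p hp => ?_) hi h0
  · rw [key.1, Finset.mul_sum, sub_eq_add_neg, ← Finset.sum_neg_distrib]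
    congr 1
    refine Finset.sum_congr rfl (fun p hp => ?_)
    have := ((mem_poles hQ).1 hp).1
    field_simp
    ring
  · obtain ⟨w1, w2, w3, w4, w5⟩ := notMem_exc hQ hNA hNB hFB hw
    have hf := quo_analyticAt (P := P) w2
    have hS : AnalyticAt ℂ (Dop lam (quo P Q)) w := Dop_analyticAt hf
    exact ((hf.sub hS).div (hf.sub analyticAt_const) (sub_ne_zero.2 w5)).differentiableAt
  · by_cases he0 : e = 0
    · rw [he0]; exact h0.isBigO_one ℂ
    · have hQe : Q.eval e ≠ 0 := fun h => heZ ((mem_poles hQ).2 ⟨he0, h⟩)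
      exact reg_psi hb he0 hQe hFB shb
  · obtain ⟨hp0, hp1⟩ := (mem_poles hQ).1 hp
    refine (pole_at (a := a) (b := b) hcop hQ hlam hp0 hp1).2.1.congr_left (fun w => ?_)
    simp

theorem X_sum {c0 c d0 d : ℂ} (h0 : Tendsto (phi lam a b (quo P Q)) (𝓝[≠] 0) (𝓝 c0))
    (hi : Tendsto (phi lam a b (quo P Q)) (cobounded ℂ) (𝓝 c))
    (h0' : Tendsto (psi lam b (quo P Q)) (𝓝[≠] 0) (𝓝 d0))
    (hi' : Tendsto (psi lam b (quo P Q)) (cobounded ℂ) (𝓝 d)) :
    d0 * (c0 - d0) = d * (c - d) - 2 * lam * (poles Q).card := by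
  have hNA := NA_ne hcop hQ hnc sha
  have hNB := NA_ne hcop hQ hnc shb
  have hFB := FB_ne hcop hnc b
  have H0 := h0'.mul (h0.sub h0')
  have key := res_sum (poles Q) (exc lam P Q a b) (by simp [poles])
    (fun p hp => by
      have := (mem_poles hQ).1 hp
      simp [exc, hQ, this.2]) (by simp [exc])
    (fun p => lam * p * (2 + lam * (Q.rootMultiplicity p : ℂ)))
    (fun p => lam ^ 2 * p ^ 2 * (Q.rootMultiplicity p : ℂ))
    (fun w => psi lam b (quo P Q) w * (phi lam a b (quo P Q) w - psi lam b (quo P Q) w))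
    (fun w hw => ?_) (fun e he heZ => ?_) (fun p hp => ?_) (hi'.mul (hi.sub hi')) H0
  · rw [key.1]
    have : ∑ p ∈ poles Q, (lam ^ 2 * p ^ 2 * (Q.rootMultiplicity p : ℂ) / p ^ 2 -
        lam * p * (2 + lam * (Q.rootMultiplicity p : ℂ)) / p) = ∑ p ∈ poles Q, (-(2 * lam)) := by
      refine Finset.sum_congr rfl (fun p hp => ?_)
      have := ((mem_poles hQ).1 hp).1
      field_simp
      ring
    rw [this, Finset.sum_const, nsmul_eq_mul]
    ring
  · obtain ⟨w1, w2, w3, w4, w5⟩ := notMem_exc hQ hNA hNB hFB hw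
    have hf := quo_analyticAt (P := P) w2
    have hS : AnalyticAt ℂ (Dop lam (quo P Q)) w := Dop_analyticAt hf
    have hT : AnalyticAt ℂ (Dop lam (Dop lam (quo P Q))) w := Dop_analyticAt hS
    have e1 : AnalyticAt ℂ (phi lam a b (quo P Q)) w :=
      (hT.mul (hf.sub hS)).div ((hS.sub analyticAt_const).mul (hS.sub analyticAt_const))
      (mul_ne_zero (sub_ne_zero.2 w3) (sub_ne_zero.2 w4))
    have e2 : AnalyticAt ℂ (psi lam b (quo P Q)) w :=
      (hf.sub hS).div (hf.sub analyticAt_const) (sub_ne_zero.2 w5)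
    exact (e2.mul (e1.sub e2)).differentiableAt
  · by_cases he0 : e = 0
    · rw [he0]; exact H0.isBigO_one ℂ
    · have hQe : Q.eval e ≠ 0 := fun h => heZ ((mem_poles hQ).2 ⟨he0, h⟩)
      have e1 := reg_phi hab he0 hQe hNA hNB sha shb
      have e2 := reg_psi hb he0 hQe hFB shb
      have e3 := e2.mul (e1.sub e2)
      simpa using e3
  · obtain ⟨hp0, hp1⟩ := (mem_poles hQ).1 hp
    exact (pole_at (a := a) (b := b) hcop hQ hlam hp0 hp1).2.2

end sums

end Pool.Agent.R237.SH
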