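import Pool.Agent.R237.SH.Loc

/-! The three auxiliary functions at a pole of `f`. -/

set_option autoImplicit false

open Set Filter Topology Asymptotics

namespace Pool.Agent.R237.SH

/-- `lam w f'(w)` -/
noncomputable def Dop (lam : ℂ) (f : ℂ → ℂ) (w : ℂ) : ℂ := lam * w * deriv f w

/-- `T (f - S) / ((S-a)(S-b))` with `S = D f`, `T = D D f`. -/
noncomputable def phi (lam a b : ℂ) (f : ℂ → ℂ) (w : ℂ) : ℂ :=
  Dop lam (Dop lam f) w * (f w - Dop lam f w) / ((Dop lam f w - a) * (Dop lam f w - b))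

/-- `(f - S) / (f - b)` with `S = D f`. -/
noncomputable def psi (lam b : ℂ) (f : ℂ → ℂ) (w : ℂ) : ℂ := (f w - Dop lam f w) / (f w - b)

/-- The derivative of `Ψ` at the pole. -/
theorem alg_psi {lam p U U1 n b d : ℂ} (hU : U ≠ 0) :
    ((U - (lam * (-(n + 1) * U) + lam * p * (-(n + 1) * U1 + U1))) * U -
      -(-(lam * p * (n + 1) * U)) * (U1 - b * d)) / U ^ 2 =
    1 + lam * (n + 1) - lam * p * (U1 / U) + lam * p * (n + 1) * b * d / U := by
  field_simp
  ring

/-- The derivative of `Φ` at the pole. -/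
theorem alg_phi {lam p U U1 n V V1 T0 T1 : ℂ} (hU : U ≠ 0) (hl : lam ≠ 0) (hp : p ≠ 0)
    (hn : n + 1 ≠ 0) (hV : V = -(lam * p * (n + 1) * U))
    (hV1 : V1 = lam * (-(n + 1) * U) + lam * p * (-(n + 1) * U1 + U1))
    (hT0 : T0 = -(lam * p * (n + 2) * V))
    (hT1 : T1 = lam * (-(n + 2) * V) + lam * p * (-(n + 2) * V1 + V1)) :
    ((T1 * (-V) + T0 * (U - V1)) * (V * V) - T0 * (-V) * (V1 * V + V * V1)) / (V * V) ^ 2 =
    lam * (n + 1) + (n + 2) / (n + 1) - lam * n * p * (U1 / U) / (n + 1) := by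
  have hV' : V ≠ 0 := by
    rw [hV]; exact neg_ne_zero.2 (mul_ne_zero (mul_ne_zero (mul_ne_zero hl hp) hn) hU)
  have e : ((T1 * (-V) + T0 * (U - V1)) * (V * V) - T0 * (-V) * (V1 * V + V * V1)) / (V * V) ^ 2 =
      lam * (n + 2) + lam * p * (n + 1) * (V1 / V) - lam * p * (n + 2) * (U / V)
        + lam * p * (n + 2) * (V1 / V) - 2 * (lam * p * (n + 2)) * (V1 / V) := by
    rw [hT0, hT1]
    field_simp
    ring
  rw [e]
  have e1 : V1 / V = 1 / p + n / (n + 1) * (U1 / U) := by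
    rw [hV1, hV]
    field_simp
    ring
  have e2 : U / V = -(1 / (lam * p * (n + 1))) := by
    rw [hV]
    field_simp
  rw [e1, e2]
  field_simp
  ring

theorem pole_main {f u : ℂ → ℂ} {p lam a b : ℂ} {n : ℕ} (hlam : lam ≠ 0) (hp : p ≠ 0)
    (hu : AnalyticAt ℂ u p) (hu0 : u p ≠ 0)
    (hf : f =ᶠ[𝓝[≠] p] fun w => u w / (w - p) ^ (n + 1)) :
    (fun w => phi lam a b f w - lam * p * (n + 2) / (w - p)) =O[𝓝[≠] p] (fun _ => (1 : ℂ)) ∧
    (fun w => psi lam b f w - lam * p * (n + 1) / (w - p)) =O[𝓝[≠] p] (fun _ => (1 : ℂ)) ∧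
    (fun w => psi lam b f w * (phi lam a b f w - psi lam b f w)
      - lam ^ 2 * p ^ 2 * (n + 1) / (w - p) ^ 2 - lam * p * (2 + lam * (n + 1)) / (w - p))
      =O[𝓝[≠] p] (fun _ => (1 : ℂ)) := by
  have hn1 : ((n : ℂ) + 1) ≠ 0 := by exact_mod_cast Nat.succ_ne_zero n
  set v : ℂ → ℂ := fun w => lam * w * (-((n + 1 : ℕ) : ℂ) * u w + (w - p) * deriv u w) with hv
  set t : ℂ → ℂ := fun w => lam * w * (-((n + 1 + 1 : ℕ) : ℂ) * v w + (w - p) * deriv v w) with ht
  have hva : AnalyticAt ℂ v p := num_analyticAt hu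
  have hta : AnalyticAt ℂ t p := num_analyticAt hva
  have hS : Dop lam f =ᶠ[𝓝[≠] p] fun w => v w / (w - p) ^ (n + 1 + 1) := pole_deriv hu hf
  have hT : Dop lam (Dop lam f) =ᶠ[𝓝[≠] p] fun w => t w / (w - p) ^ (n + 1 + 1 + 1) :=
    pole_deriv hva hS
  have hv0 : v p = -(lam * p * (n + 1) * u p) := by simp [hv]; ring
  have hv0' : v p ≠ 0 := by
    rw [hv0]; exact neg_ne_zero.2 (mul_ne_zero (mul_ne_zero (mul_ne_zero hlam hp) hn1) hu0)
  have hvd := num_hasDerivAt (lam := lam) (m := ((n + 1 : ℕ) : ℂ)) hu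
  rw [← hv] at hvd
  have hdv : deriv v p = lam * (-((n + 1 : ℕ) : ℂ) * u p) + lam * p *
      (-((n + 1 : ℕ) : ℂ) * deriv u p + deriv u p) := hvd.deriv
  have htd := num_hasDerivAt (lam := lam) (m := ((n + 1 + 1 : ℕ) : ℂ)) hva
  rw [← ht] at htd
  have ht0 : t p = -(lam * p * (n + 2) * v p) := by simp [ht]; ring
  have hud : HasDerivAt u (deriv u p) p := hu.differentiableAt.hasDerivAt
  have hvd' : HasDerivAt v (deriv v p) p := hva.differentiableAt.hasDerivAt
  have hid : HasDerivAt (fun w : ℂ => w - p) 1 p := (hasDerivAt_id p).sub_const p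
  have hL : HasDerivAt (fun w => (w - p) * u w - v w) (u p - deriv v p) p := by
    refine ((hid.mul hud).sub hvd').congr_deriv ?_
    simp
  have hpw : ∀ c : ℂ, HasDerivAt (fun w => v w - c * (w - p) ^ (n + 1 + 1)) (deriv v p) p := by
    intro c
    refine (hvd'.sub ((hid.pow (n + 1 + 1)).const_mul c)).congr_deriv ?_
    simp
  set δ : ℂ := ((n + 1 : ℕ) : ℂ) * (0 : ℂ) ^ n with hδ
  have hδ0 : (n : ℂ) * δ = 0 := by
    rw [hδ]
    rcases n with _ | n
    · simp
    · simp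
  have hpu : HasDerivAt (fun w => u w - b * (w - p) ^ (n + 1)) (deriv u p - b * δ) p := by
    refine (hud.sub ((hid.pow (n + 1)).const_mul b)).congr_deriv ?_
    simp [hδ]
  set Φ : ℂ → ℂ := fun w => t w * ((w - p) * u w - v w) /
    ((v w - a * (w - p) ^ (n + 1 + 1)) * (v w - b * (w - p) ^ (n + 1 + 1))) with hΦ
  set Ψ : ℂ → ℂ := fun w => ((w - p) * u w - v w) / (u w - b * (w - p) ^ (n + 1)) with hΨ
  have hpa : AnalyticAt ℂ (fun w : ℂ => w - p) p := analyticAt_id.sub analyticAt_const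
  have hLa : AnalyticAt ℂ (fun w => (w - p) * u w - v w) p := (hpa.mul hu).sub hva
  have hda : ∀ c : ℂ, AnalyticAt ℂ (fun w => v w - c * (w - p) ^ (n + 1 + 1)) p := fun c =>
    hva.sub (analyticAt_const.mul (hpa.pow _))
  have hdu : AnalyticAt ℂ (fun w => u w - b * (w - p) ^ (n + 1)) p :=
    hu.sub (analyticAt_const.mul (hpa.pow _))
  have hden : ((v p - a * (p - p) ^ (n + 1 + 1)) * (v p - b * (p - p) ^ (n + 1 + 1))) ≠ 0 := by
    simp [hv0']
  have hdenu : u p - b * (p - p) ^ (n + 1) ≠ 0 := by simp [hu0]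
  have hΦa : AnalyticAt ℂ Φ p := (hta.mul hLa).div ((hda a).mul (hda b)) hden
  have hΨa : AnalyticAt ℂ Ψ p := hLa.div hdu hdenu
  have hΦ0 : Φ p = lam * p * (n + 2) := by
    simp only [hΦ, sub_self, zero_mul, zero_sub, ne_eq, Nat.add_eq_zero_iff, one_ne_zero, and_false,
      not_false_eq_true, zero_pow, mul_zero, sub_zero, ht0]
    field_simp
  have hΨ0 : Ψ p = lam * p * (n + 1) := by
    simp only [hΨ, sub_self, zero_mul, zero_sub, ne_eq, Nat.add_eq_zero_iff, one_ne_zero, and_false,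
      not_false_eq_true, zero_pow, mul_zero, sub_zero, hv0]
    field_simp
  have hΦe : phi lam a b f =ᶠ[𝓝[≠] p] fun w => Φ w / (w - p) := by
    filter_upwards [hf, hS, hT, self_mem_nhdsWithin] with w h1 h2 h3 h4
    have hne : w - p ≠ 0 := sub_ne_zero.2 h4
    simp only [phi, hΦ]
    rw [h1, h2, h3]
    have e1 : ∀ c : ℂ, v w / (w - p) ^ (n + 1 + 1) - c =
        (v w - c * (w - p) ^ (n + 1 + 1)) / (w - p) ^ (n + 1 + 1) := by
      intro c
      field_simp
    have e2 : u w / (w - p) ^ (n + 1) - v w / (w - p) ^ (n + 1 + 1) =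
        ((w - p) * u w - v w) / (w - p) ^ (n + 1 + 1) := by
      field_simp
      ring
    rw [e1, e1, e2, div_mul_div_comm, div_mul_div_comm, div_div_div_eq, div_div]
    have e3 : (w - p) ^ (n + 1 + 1 + 1) * (w - p) ^ (n + 1 + 1) =
        (w - p) * ((w - p) ^ (n + 1 + 1) * (w - p) ^ (n + 1 + 1)) := by ring
    rw [e3]
    have e4 : (w - p) ^ (n + 1 + 1) * (w - p) ^ (n + 1 + 1) ≠ 0 :=
      mul_ne_zero (pow_ne_zero _ hne) (pow_ne_zero _ hne)
    generalize (w - p) ^ (n + 1 + 1) * (w - p) ^ (n + 1 + 1) = q at e4 ⊢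
    generalize (v w - a * (w - p) ^ (n + 1 + 1)) * (v w - b * (w - p) ^ (n + 1 + 1)) = d
    rw [show (w - p) * q * d = q * (d * (w - p)) by ring,
      show t w * ((w - p) * u w - v w) * q = q * (t w * ((w - p) * u w - v w)) by ring,
      mul_div_mul_left _ _ e4]
  have hΨe : psi lam b f =ᶠ[𝓝[≠] p] fun w => Ψ w / (w - p) := by
    filter_upwards [hf, hS, self_mem_nhdsWithin] with w h1 h2 h4
    have hne : w - p ≠ 0 := sub_ne_zero.2 h4
    simp only [psi, hΨ]
    rw [h1, h2]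
    have e1 : u w / (w - p) ^ (n + 1) - b =
        (u w - b * (w - p) ^ (n + 1)) / (w - p) ^ (n + 1) := by
      field_simp
    have e2 : u w / (w - p) ^ (n + 1) - v w / (w - p) ^ (n + 1 + 1) =
        ((w - p) * u w - v w) / (w - p) ^ (n + 1 + 1) := by
      field_simp
      ring
    rw [e1, e2, div_div_div_eq, div_div]
    have e4 : (w - p) ^ (n + 1) ≠ 0 := pow_ne_zero _ hne
    rw [show (w - p) ^ (n + 1 + 1) = (w - p) ^ (n + 1) * (w - p) by ring]
    generalize (w - p) ^ (n + 1) = q at e4 ⊢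
    generalize u w - b * q = d
    rw [show q * (w - p) * d = q * (d * (w - p)) by ring,
      show ((w - p) * u w - v w) * q = q * ((w - p) * u w - v w) by ring,
      mul_div_mul_left _ _ e4]
  refine ⟨bdd_one hΦa hΦ0 hΦe, bdd_one hΨa hΨ0 hΨe, ?_⟩
  have hXe : (fun w => psi lam b f w * (phi lam a b f w - psi lam b f w)) =ᶠ[𝓝[≠] p]
      fun w => (Ψ w * (Φ w - Ψ w)) / (w - p) ^ 2 := by
    filter_upwards [hΦe, hΨe, self_mem_nhdsWithin] with w h1 h2 h4
    have hne : w - p ≠ 0 := sub_ne_zero.2 h4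
    rw [h1, h2]
    field_simp
  have hΨd : HasDerivAt Ψ (1 + lam * (n + 1) - lam * p * (deriv u p / u p)
      + lam * p * (n + 1) * b * δ / u p) p := by
    refine (hL.fun_div hpu hdenu).congr_deriv ?_
    simp only [sub_self, zero_mul, zero_sub, ne_eq, Nat.add_eq_zero_iff, one_ne_zero, and_false,
      not_false_eq_true, zero_pow, mul_zero, sub_zero]
    rw [← alg_psi (lam := lam) (p := p) (U := u p) (U1 := deriv u p) (n := n) (b := b) (d := δ) hu0,
      hdv, hv0]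
    push_cast
    ring
  have hΦd : HasDerivAt Φ (lam * (n + 1) + (n + 2) / (n + 1)
      - lam * n * p * (deriv u p / u p) / (n + 1)) p := by
    refine ((htd.fun_mul hL).fun_div ((hpw a).fun_mul (hpw b)) hden).congr_deriv ?_
    simp only [sub_self, zero_mul, zero_sub, ne_eq, Nat.add_eq_zero_iff, one_ne_zero, and_false,
      not_false_eq_true, zero_pow, mul_zero, sub_zero]
    rw [← alg_phi (lam := lam) (p := p) (U := u p) (U1 := deriv u p) (n := n) (V := v p)
      (V1 := deriv v p) (T0 := t p)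
      (T1 := lam * (-((n : ℂ) + 2) * v p) + lam * p * (-((n : ℂ) + 2) * deriv v p + deriv v p))
      hu0 hlam hp hn1 hv0 (by rw [hdv]; push_cast; ring) ht0 rfl]
    push_cast
    ring
  refine bdd_two (G := fun w => Ψ w * (Φ w - Ψ w)) (hΨa.mul (hΦa.sub hΨa)) ?_
    ((hΨd.fun_mul (hΦd.fun_sub hΨd)).congr_deriv ?_) hXe
  · show Ψ p * (Φ p - Ψ p) = _
    rw [hΦ0, hΨ0]
    ring
  · rw [hΦ0, hΨ0]
    have hfin : (n : ℂ) * (lam * p * (n + 1) * b * δ / u p) = 0 := by
      rw [show (n : ℂ) * (lam * p * (n + 1) * b * δ / u p) =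
        (n * δ) * (lam * p * (n + 1) * b / u p) by ring, hδ0, zero_mul]
    generalize deriv u p / u p = g
    generalize lam * p * (n + 1) * b * δ / u p = r at hfin ⊢
    have : (((n : ℂ) + 1)) * (lam * (n + 1) + (n + 2) / (n + 1) - lam * n * p * g / (n + 1)) =
        lam * (n + 1) ^ 2 + (n + 2) - lam * n * p * g := by
      field_simp
    linear_combination (lam * p) * this - lam * p * hfin

end Pool.Agent.R237.SH
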