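import Pool.Agent.R237.SH.Liou
import Pool.Agent.R237.SH.End

/-! The sum of the residues, and bounds at the other points. -/

set_option autoImplicit false

open Set Filter Topology Asymptotics Bornology

namespace Pool.Agent.R237.SH

theorem isBigO_one_of_continuousAt {g : ℂ → ℂ} {e : ℂ} (h : ContinuousAt g e) :
    g =O[𝓝[≠] e] (fun _ => (1 : ℂ)) :=
  (h.tendsto.mono_left nhdsWithin_le_nhds).isBigO_one ℂ

theorem res_sum (Z E : Finset ℂ) (h0 : (0 : ℂ) ∉ Z) (hZE : Z ⊆ E) (_h0E : (0 : ℂ) ∈ E)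
    (A B X : ℂ → ℂ) (hX : ∀ w, w ∉ E → DifferentiableAt ℂ X w)
    (hb : ∀ e ∈ E, e ∉ Z → X =O[𝓝[≠] e] (fun _ => (1 : ℂ)))
    (hp : ∀ p ∈ Z, (fun w => X w - B p / (w - p) ^ 2 - A p / (w - p))
      =O[𝓝[≠] p] (fun _ => (1 : ℂ))) {c c0 : ℂ}
    (hc : Tendsto X (cobounded ℂ) (𝓝 c)) (hc0 : Tendsto X (𝓝[≠] 0) (𝓝 c0)) :
    c0 = c + ∑ p ∈ Z, (B p / p ^ 2 - A p / p) ∧ (Z = ∅ → ∀ w, w ∉ E → X w = c) := by
  classical
  set Sg : Finset ℂ → ℂ → ℂ := fun F w => ∑ p ∈ F, (B p / (w - p) ^ 2 + A p / (w - p)) with hSg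
  have hSd : ∀ (F : Finset ℂ) (w : ℂ), w ∉ F → DifferentiableAt ℂ (Sg F) w := by
    intro F w hw
    rw [hSg]
    refine DifferentiableAt.fun_sum (fun p hpF => ?_)
    have hne : w - p ≠ 0 := sub_ne_zero.2 (fun h => hw (h ▸ hpF))
    have h1 : DifferentiableAt ℂ (fun w : ℂ => w - p) w := differentiableAt_id.sub_const p
    exact ((differentiableAt_const _).div (h1.pow 2) (pow_ne_zero _ hne)).add
      ((differentiableAt_const _).div h1 hne)
  set Y : ℂ → ℂ := fun w => X w - Sg Z w with hY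
  have hSinf : Tendsto (Sg Z) (cobounded ℂ) (𝓝 0) := by
    have : Tendsto (Sg Z) (cobounded ℂ) (𝓝 (∑ p ∈ Z, (B p * 0 ^ 2 + A p * 0))) := by
      refine tendsto_finsetSum _ (fun p _ => ?_)
      have h1 : Tendsto (fun w : ℂ => w - p) (cobounded ℂ) (cobounded ℂ) := by
        have := tendsto_add_const_cobounded (-p : ℂ)
        simpa [sub_eq_add_neg] using this
      have h2 : Tendsto (fun w : ℂ => (w - p)⁻¹) (cobounded ℂ) (𝓝 0) :=
        tendsto_inv₀_cobounded.comp h1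
      refine (((h2.pow 2).const_mul (B p)).add (h2.const_mul (A p))).congr (fun w => ?_)
      rw [div_eq_mul_inv, div_eq_mul_inv, inv_pow]
    simpa using this
  have key : ∀ w, w ∉ E → Y w = c := by
    refine liouville_exc E Y (fun w hw => (hX w hw).sub (hSd Z w (fun h => hw (hZE h)))) ?_ c ?_
    · intro e he
      by_cases heZ : e ∈ Z
      · have h1 := hp e heZ
        have h2 : Sg (Z.erase e) =O[𝓝[≠] e] (fun _ => (1 : ℂ)) :=
          isBigO_one_of_continuousAt (hSd _ e (Finset.notMem_erase e Z)).continuousAt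
        refine (h1.sub h2).congr_left (fun w => ?_)
        simp only [hY, hSg]
        rw [← Finset.add_sum_erase Z _ heZ]
        ring
      · exact (hb e he heZ).sub (isBigO_one_of_continuousAt (hSd _ e heZ).continuousAt)
    · rw [← Metric.cobounded_eq_cocompact]
      simpa using hc.sub hSinf
  have hE0 : ∀ᶠ w : ℂ in 𝓝[≠] 0, w ∉ E := by
    have h1 : ((E.erase 0 : Finset ℂ) : Set ℂ)ᶜ ∈ 𝓝 (0 : ℂ) :=
      (Finset.finite_toSet _).isClosed.isOpen_compl.mem_nhds (by simp)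
    filter_upwards [nhdsWithin_le_nhds h1, self_mem_nhdsWithin] with w hw1 hw2 hw3
    exact hw1 (Finset.mem_coe.2 (Finset.mem_erase.2 ⟨hw2, hw3⟩))
  have h1 : Tendsto Y (𝓝[≠] 0) (𝓝 c) :=
    tendsto_const_nhds.congr' (by filter_upwards [hE0] with w hw using (key w hw).symm)
  have h2 : Tendsto Y (𝓝[≠] 0) (𝓝 (c0 - Sg Z 0)) :=
    hc0.sub ((hSd Z 0 h0).continuousAt.tendsto.mono_left nhdsWithin_le_nhds)
  have h3 := tendsto_nhds_unique h1 h2
  have h4 : Sg Z 0 = ∑ p ∈ Z, (B p / p ^ 2 - A p / p) := by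
    simp only [hSg]
    refine Finset.sum_congr rfl (fun p _ => ?_)
    rw [zero_sub, neg_sq, div_neg]
    ring
  refine ⟨by rw [← h4, h3]; ring, fun hZ w hw => ?_⟩
  have h5 := key w hw
  simp only [hY, hSg, hZ, Finset.sum_empty, sub_zero] at h5
  exact h5

/-- `h' L / h` is bounded near a common zero of `h` and `L`. -/
theorem logDeriv_bdd {h L : ℂ → ℂ} {e : ℂ} (hh : AnalyticAt ℂ h e) (hL : AnalyticAt ℂ L e)
    (hL0 : L e = 0) (hne : ¬ ∀ᶠ w in 𝓝 e, h w = 0) :
    (fun w => deriv h w * L w / h w) =O[𝓝[≠] e] (fun _ => (1 : ℂ)) := by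
  obtain ⟨n, g, hg, hg0, hgh⟩ := (hh.exists_eventuallyEq_pow_smul_nonzero_iff).2 hne
  have h1 : AnalyticAt ℂ (dslope L e) e := by
    obtain ⟨q, hq⟩ := hL
    exact ⟨q.fslope, hq.has_fpower_series_dslope_fslope⟩
  have hcont : ContinuousAt (fun w => ((n : ℂ) * g w + (w - e) * deriv g w) / g w * dslope L e w) e := by
    have h2 : AnalyticAt ℂ (fun w => (n : ℂ) * g w + (w - e) * deriv g w) e :=
      (analyticAt_const.mul hg).add ((analyticAt_id.sub analyticAt_const).mul hg.deriv)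
    exact ((h2.div hg hg0).mul h1).continuousAt
  refine (isBigO_one_of_continuousAt hcont).congr' ?_ (EventuallyEq.refl _ _)
  have hgd : ∀ᶠ w in 𝓝[≠] e, DifferentiableAt ℂ g w :=
    (hg.eventually_analyticAt.mono fun w hw => hw.differentiableAt).filter_mono nhdsWithin_le_nhds
  have hg0' : ∀ᶠ w in 𝓝[≠] e, g w ≠ 0 :=
    (hg.continuousAt.eventually_ne hg0).filter_mono nhdsWithin_le_nhds
  have e1 : h =ᶠ[𝓝[≠] e] fun w => (w - e) ^ n * g w := by
    refine Filter.EventuallyEq.filter_mono ?_ nhdsWithin_le_nhds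
    filter_upwards [hgh] with w hw
    rw [hw, smul_eq_mul]
  filter_upwards [e1, e1.nhdsNE_deriv, hgd, hg0', self_mem_nhdsWithin] with w a1 a2 a3 a4 a5
  have hw : w - e ≠ 0 := sub_ne_zero.2 a5
  have hd : HasDerivAt (fun w => (w - e) ^ n * g w)
      (((n : ℂ) * (w - e) ^ (n - 1) * 1) * g w + (w - e) ^ n * deriv g w) w :=
    (((hasDerivAt_id w).sub_const e).pow n).mul a3.hasDerivAt
  rw [a1, a2, hd.deriv, dslope_of_ne _ a5, slope_def_field, hL0, sub_zero]
  rcases n with _ | n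
  · simp
    field_simp
  · simp only [Nat.add_sub_cancel]
    field_simp
    push_cast
    ring

end Pool.Agent.R237.SH
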